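import Pool.Agent.Y386.IR.Stm2

set_option autoImplicit false

/-! Project IR (helper386), part CLQa: cliques of the lexicographic product of a circular clique
and a graph. (Adaptation of the file of helper970.) -/

namespace Pool.Agent.Y975.IR

open Pool.Agent.H692R2 Pool.Agent.Y386.IR Finset

/-- the embedding of copy number `i` -/
def emb {V : Type} {m : ℕ} (x : Fin m × V → ℕ) (i : Fin m) :
    (Σ v : V, Fin (x (i, v))) ↪ (Σ p : Fin m × V, Fin (x p)) where
  toFun a := ⟨(i, a.1), a.2⟩
  inj' := by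
    rintro ⟨a, s⟩ ⟨b, t⟩ h
    simp only [Sigma.mk.injEq, Prod.mk.injEq, true_and] at h
    obtain ⟨rfl, h2⟩ := h
    rw [eq_of_heq h2]

theorem emb_adj {V : Type} (G : SimpleGraph V) {m : ℕ} (d : ℕ) (x : Fin m × V → ℕ) (i : Fin m)
    (a b : Σ v : V, Fin (x (i, v))) (h : (replicated G fun v => x (i, v)).Adj a b) :
    (replicated (lexK m d G) x).Adj (emb x i a) (emb x i b) := by
  rcases h with ⟨h1, h2⟩ | h
  · refine Or.inl ⟨?_, fun h => h2 ((emb x i).injective h)⟩
    change (i, a.1) = (i, b.1)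
    rw [h1]
  · exact Or.inr (Or.inl ⟨rfl, h⟩)

theorem t_CLQa : S_CLQa := by
  classical
  intro V _ G m d x
  refine ⟨fun i => ?_, fun i j hij hC => ?_⟩
  · obtain ⟨K, hK⟩ := (replicated G fun v => x (i, v)).exists_isNClique_cliqueNum
    have hcl : (replicated (lexK m d G) x).IsClique
        ((K.map (emb x i) : Finset _) : Set (Σ p : Fin m × V, Fin (x p))) := by
      intro p hp r hr hpr
      rw [Finset.mem_coe, Finset.mem_map] at hp hr
      obtain ⟨a, ha, rfl⟩ := hp
      obtain ⟨b, hb, rfl⟩ := hr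
      exact emb_adj G d x i a b (hK.1 ha hb fun h => hpr (by rw [h]))
    have h2 := SimpleGraph.IsClique.card_le_cliqueNum (tc := hcl)
    rw [Finset.card_map, hK.2] at h2
    exact h2
  obtain ⟨K, hK⟩ := (replicated G fun v => x (i, v)).exists_isNClique_cliqueNum
  obtain ⟨K', hK'⟩ := (replicated G fun v => x (j, v)).exists_isNClique_cliqueNum
  have hdisj : Disjoint (K.map (emb x i)) (K'.map (emb x j)) := by
    rw [Finset.disjoint_left]
    intro p h1 h2
    obtain ⟨a, -, rfl⟩ := Finset.mem_map.1 h1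
    obtain ⟨b, -, h3⟩ := Finset.mem_map.1 h2
    have h4 : (emb x j b).1.1 = (emb x i a).1.1 := by rw [h3]
    exact hij h4.symm
  have hcl : (replicated (lexK m d G) x).IsClique
      ((K.map (emb x i) ∪ K'.map (emb x j) : Finset _) :
        Set (Σ p : Fin m × V, Fin (x p))) := by
    intro p hp r hr hpr
    rw [Finset.coe_union, Set.mem_union, Finset.mem_coe, Finset.mem_coe, Finset.mem_map,
      Finset.mem_map] at hp hr
    rcases hp with ⟨a, ha, rfl⟩ | ⟨a, ha, rfl⟩ <;> rcases hr with ⟨b, hb, rfl⟩ | ⟨b, hb, rfl⟩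
    · exact emb_adj G d x i a b (hK.1 ha hb fun h => hpr (by rw [h]))
    · exact Or.inr (Or.inr ⟨hij, hC⟩)
    · exact Or.inr (Or.inr ⟨hij.symm, Or.symm hC⟩)
    · exact emb_adj G d x j a b (hK'.1 ha hb fun h => hpr (by rw [h]))
  have h2 := SimpleGraph.IsClique.card_le_cliqueNum (tc := hcl)
  rw [Finset.card_union_of_disjoint hdisj, Finset.card_map, Finset.card_map, hK.2, hK'.2] at h2
  exact h2

end Pool.Agent.Y975.IR
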